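import Pool.Agent.K1H89.DP.Prod

/-! # Project DP: `S_IDEAL`, the content is the inverse of the norm of the ideal `(x, y)` -/

set_option autoImplicit false

namespace Pool.Agent.K1H89.DP

open Pool.Agent.K1H88.DP Module NumberField FractionalIdeal
open scoped nonZeroDivisors

section

variable {F : Type} [Field F] [NumberField F]

theorem norm_O_le {p : Nat.Primes} (σ : F →+* Kp p) (r : 𝓞 F) : ‖σ (r : F)‖ ≤ 1 :=
  norm_le_one_of_integral' σ r.2

/-- the fractional ideal generated by two elements -/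
noncomputable abbrev fi (x y : F) : FractionalIdeal (𝓞 F)⁰ F :=
  spanSingleton (𝓞 F)⁰ x + spanSingleton (𝓞 F)⁰ y

theorem mem_fi_le {p : Nat.Primes} (σ : F →+* Kp p) (x y : F) {z : F} (hz : z ∈ fi x y) :
    ‖σ z‖ ≤ max ‖σ x‖ ‖σ y‖ := by
  obtain ⟨u, hu, v, hv, rfl⟩ := (mem_add _ _ _).1 hz
  obtain ⟨r, rfl⟩ := (mem_spanSingleton _).1 hu
  obtain ⟨s, rfl⟩ := (mem_spanSingleton _).1 hv
  rw [map_add]
  refine (norm_add_le' _ _).trans (max_le_max ?_ ?_)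
  · rw [Algebra.smul_def, map_mul, norm_mul]
    exact mul_le_of_le_one_left (norm_nonneg _) (norm_O_le σ r)
  · rw [Algebra.smul_def, map_mul, norm_mul]
    exact mul_le_of_le_one_left (norm_nonneg _) (norm_O_le σ s)

theorem mem_pow_le {p : Nat.Primes} (σ : F →+* Kp p) (x y : F) (n : ℕ) : ∀ {z : F},
    z ∈ fi x y ^ n → ‖σ z‖ ≤ (max ‖σ x‖ ‖σ y‖) ^ n := by
  induction n with
  | zero =>
    intro z hz
    rw [pow_zero] at hz ⊢
    obtain ⟨r, rfl⟩ := (mem_one_iff _).1 hz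
    exact norm_O_le σ r
  | succ n ih =>
    intro z hz
    rw [pow_succ] at hz
    refine FractionalIdeal.mul_induction_on (C := fun z => ‖σ z‖ ≤ (max ‖σ x‖ ‖σ y‖) ^ (n + 1)) hz
      ?_ ?_
    · intro i hi j hj
      show ‖σ (i * j)‖ ≤ _
      rw [map_mul, norm_mul, pow_succ]
      exact mul_le_mul (ih hi) (mem_fi_le σ x y hj) (norm_nonneg _) (by positivity)
    · intro u v hu hv
      show ‖σ (u + v)‖ ≤ _
      rw [map_add]
      exact (norm_add_le' _ _).trans (max_le hu hv)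

theorem pow_mem (x y : F) (n : ℕ) : x ^ n ∈ fi x y ^ n ∧ y ^ n ∈ fi x y ^ n := by
  induction n with
  | zero =>
    rw [pow_zero, pow_zero, pow_zero]
    exact ⟨one_mem_one _, one_mem_one _⟩
  | succ n ih =>
    have hx : x ∈ fi x y := (mem_add _ _ _).2 ⟨x, mem_spanSingleton_self _ x, 0, zero_mem _, add_zero x⟩
    have hy : y ∈ fi x y := (mem_add _ _ _).2 ⟨0, zero_mem _, y, mem_spanSingleton_self _ y, zero_add y⟩
    rw [pow_succ, pow_succ, pow_succ]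
    exact ⟨mul_mem_mul ih.1 hx, mul_mem_mul ih.2 hy⟩

theorem local_eq {p : Nat.Primes} (σ : F →+* Kp p) (x y a : F) (h : ℕ)
    (ha : fi x y ^ h = spanSingleton (𝓞 F)⁰ a) : (max ‖σ x‖ ‖σ y‖) ^ h = ‖σ a‖ := by
  refine le_antisymm ?_ ?_
  · have key : ∀ z : F, z ∈ spanSingleton (𝓞 F)⁰ a → ‖σ z‖ ≤ ‖σ a‖ := by
      intro z hz
      obtain ⟨r, rfl⟩ := (mem_spanSingleton _).1 hz
      rw [Algebra.smul_def, map_mul, norm_mul]
      exact mul_le_of_le_one_left (norm_nonneg _) (norm_O_le σ r)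
    rcases max_cases ‖σ x‖ ‖σ y‖ with ⟨h1, -⟩ | ⟨h1, -⟩
    · rw [h1, ← norm_pow, ← map_pow]
      exact key _ (ha ▸ (pow_mem x y h).1)
    · rw [h1, ← norm_pow, ← map_pow]
      exact key _ (ha ▸ (pow_mem x y h).2)
  · exact mem_pow_le σ x y h (ha ▸ mem_spanSingleton_self _ a)

theorem prod_norm_eq (p : Nat.Primes) (a : F) :
    ∏ σ : F →+* Kp p, ‖σ a‖ = ‖((Algebra.norm ℚ a : ℚ) : ℚ_[(p : ℕ)])‖ := by
  rw [← norm_rat p, ← norm_prod]
  congr 1
  have h := Algebra.norm_eq_prod_embeddings ℚ (Kp p) a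
  rw [eq_ratCast] at h
  rw [h]
  exact Fintype.prod_equiv (RingHom.equivRatAlgHom F (Kp p)) _ _ fun f => rfl

theorem exists_pow_principal (x y : F) (hxy : x ≠ 0 ∨ y ≠ 0) :
    ∃ (h : ℕ) (a : F), h ≠ 0 ∧ a ≠ 0 ∧ fi x y ^ h = spanSingleton (𝓞 F)⁰ a := by
  have hne : fi x y ≠ 0 := by
    intro h0
    have hx := (pow_mem x y 1).1
    have hy := (pow_mem x y 1).2
    rw [h0, pow_one, pow_one] at hx
    rw [h0, pow_one, pow_one] at hy
    rcases hxy with h | h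
    · exact h ((mem_zero_iff _).1 hx)
    · exact h ((mem_zero_iff _).1 hy)
  refine ⟨Fintype.card (ClassGroup (𝓞 F)), ?_⟩
  have h1 : (ClassGroup.mk F (Units.mk0 (fi x y) hne)) ^ Fintype.card (ClassGroup (𝓞 F)) = 1 :=
    pow_card_eq_one
  rw [← map_pow, ClassGroup.mk_eq_one_iff] at h1
  rw [isPrincipal_iff] at h1
  obtain ⟨a, ha⟩ := h1
  have ha' : fi x y ^ Fintype.card (ClassGroup (𝓞 F)) = spanSingleton (𝓞 F)⁰ a := by
    rw [← ha]
    simp
  refine ⟨a, Fintype.card_ne_zero, ?_, ha'⟩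
  rintro rfl
  rw [spanSingleton_zero] at ha'
  exact pow_ne_zero _ hne ha'

end

theorem t_IDEAL : S_IDEAL := by
  intro F _ _ x y hxy
  obtain ⟨h, a, hh, ha0, ha⟩ := exists_pow_principal x y hxy
  have hN : Algebra.norm ℚ a ≠ 0 := Algebra.norm_ne_zero_iff.2 ha0
  obtain ⟨r1, r2⟩ := rat_formula (Algebra.norm ℚ a) hN
  have hc : ∀ p : Nat.Primes, (∏ σ : F →+* Kp p, max ‖σ x‖ ‖σ y‖) ^ h =
      ‖((Algebra.norm ℚ a : ℚ) : ℚ_[(p : ℕ)])‖ := by
    intro p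
    rw [← prod_norm_eq, ← Finset.prod_pow]
    exact Finset.prod_congr rfl fun σ _ => local_eq σ x y a h ha
  have hnn : ∀ p : Nat.Primes, 0 ≤ ∏ σ : F →+* Kp p, max ‖σ x‖ ‖σ y‖ := fun p =>
    Finset.prod_nonneg fun σ _ => le_max_of_le_left (norm_nonneg _)
  have hs : (Function.mulSupport fun p : Nat.Primes =>
      ∏ σ : F →+* Kp p, max ‖σ x‖ ‖σ y‖).Finite := by
    refine r1.subset ?_
    intro p hp hp'
    apply hp
    have h2 := hc p
    have h3 : (∏ σ : F →+* Kp p, max ‖σ x‖ ‖σ y‖) ^ h = 1 := h2.trans hp'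
    exact (pow_eq_one_iff_of_nonneg (hnn p) hh).1 h3
  have h4 : cont F x y ^ h = ∏ᶠ p : Nat.Primes, ‖((Algebra.norm ℚ a : ℚ) : ℚ_[(p : ℕ)])‖ := by
    unfold cont
    rw [finprod_pow hs]
    exact finprod_congr hc
  have h5 : (absNorm (fi x y) : ℝ) ^ h = |((Algebra.norm ℚ a : ℚ) : ℝ)| := by
    have h6 : absNorm (fi x y) ^ h = |Algebra.norm ℚ a| := by
      rw [← map_pow, ha, absNorm_span_singleton]
    rw [← Rat.cast_pow, h6, Rat.cast_abs]
  have h7 : (cont F x y * (absNorm (fi x y) : ℝ)) ^ h = 1 := by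
    rw [mul_pow, h4, h5, r2]
  refine (pow_eq_one_iff_of_nonneg ?_ hh).1 h7
  refine mul_nonneg (finprod_nonneg fun p => hnn p) ?_
  exact_mod_cast absNorm_nonneg _

end Pool.Agent.K1H89.DP
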