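import Pool.Agent.K1H88.DP.Stm

/-! # Project DP: norms of rational numbers and of integral elements at all primes -/

set_option autoImplicit false

namespace Pool.Agent.K1H89.DP

open Pool.Agent.K1H88.DP Module NumberField

theorem norm_rat (p : Nat.Primes) (q : ℚ) : ‖((q : ℚ) : Kp p)‖ = ‖((q : ℚ) : ℚ_[(p : ℕ)])‖ := by
  have h : ((q : ℚ) : Kp p) = algebraMap ℚ_[(p : ℕ)] (Kp p) ((q : ℚ) : ℚ_[(p : ℕ)]) :=
    (map_ratCast _ _).symm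
  rw [h]
  exact PadicAlgCl.norm_extends (p : ℕ) _

theorem norm_add_le' {p : Nat.Primes} (x y : Kp p) : ‖x + y‖ ≤ max ‖x‖ ‖y‖ :=
  PadicAlgCl.isNonarchimedean (p : ℕ) x y

theorem norm_le_one_of_integral {p : Nat.Primes} {z : Kp p} (hz : IsIntegral ℤ z) : ‖z‖ ≤ 1 := by
  let v : Valuation (Kp p) NNReal := NormedField.valuation (K := Kp p)
  have h1 : IsIntegral v.integer z := hz.tower_top
  have h2 := (Valuation.integer.integers v).isIntegral_iff_v_le_one.1 h1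
  exact h2

theorem norm_le_one_of_integral' {p : Nat.Primes} {F : Type} [Field F] (σ : F →+* Kp p) {z : F}
    (hz : IsIntegral ℤ z) : ‖σ z‖ ≤ 1 :=
  norm_le_one_of_integral (hz.map σ.toIntAlgHom)

theorem norm_prime_self (p : Nat.Primes) : ‖(((p : ℕ) : ℚ) : ℚ_[(p : ℕ)])‖ = ((p : ℕ) : ℝ)⁻¹ := by
  have h : ((((p : ℕ) : ℚ)) : ℚ_[(p : ℕ)]) = ((p : ℕ) : ℚ_[(p : ℕ)]) := by push_cast; rfl
  rw [h]
  exact Padic.norm_p

theorem norm_prime_ne (p r : Nat.Primes) (h : p ≠ r) :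
    ‖(((r : ℕ) : ℚ) : ℚ_[(p : ℕ)])‖ = 1 := by
  have h1 : ((((r : ℕ) : ℚ)) : ℚ_[(p : ℕ)]) = ((r : ℕ) : ℚ_[(p : ℕ)]) := by push_cast; rfl
  rw [h1, Padic.norm_natCast_eq_one_iff]
  exact (Nat.coprime_primes p.2 r.2).2 fun h2 => h (Subtype.ext h2)

theorem supp_prime (r : Nat.Primes) :
    (Function.mulSupport fun p : Nat.Primes => ‖(((r : ℕ) : ℚ) : ℚ_[(p : ℕ)])‖).Finite := by
  refine (Set.finite_singleton r).subset ?_
  intro p hp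
  by_contra hcon
  exact hp (norm_prime_ne p r hcon)

theorem nat_formula (n : ℕ) (hn : n ≠ 0) :
    (Function.mulSupport fun p : Nat.Primes => ‖(((n : ℕ) : ℚ) : ℚ_[(p : ℕ)])‖).Finite ∧
      (∏ᶠ p : Nat.Primes, ‖(((n : ℕ) : ℚ) : ℚ_[(p : ℕ)])‖) * (n : ℝ) = 1 := by
  induction n using induction_on_primes with
  | zero => exact absurd rfl hn
  | one =>
    have e : (fun p : Nat.Primes => ‖(((1 : ℕ) : ℚ) : ℚ_[(p : ℕ)])‖) = fun _ => 1 := by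
      funext p; simp
    rw [e]
    refine ⟨?_, ?_⟩
    · simp
    · simp
  | prime_mul r a hr ih =>
    have ha : a ≠ 0 := by rintro rfl; simp at hn
    obtain ⟨h1, h2⟩ := ih ha
    have e : (fun p : Nat.Primes => ‖(((r * a : ℕ) : ℚ) : ℚ_[(p : ℕ)])‖) =
        fun p : Nat.Primes => ‖(((r : ℕ) : ℚ) : ℚ_[(p : ℕ)])‖ *
          ‖(((a : ℕ) : ℚ) : ℚ_[(p : ℕ)])‖ := by
      funext p
      rw [← norm_mul]
      push_cast
      rfl
    obtain ⟨R, hR⟩ : ∃ R : Nat.Primes, (R : ℕ) = r := ⟨⟨r, hr⟩, rfl⟩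
    subst hR
    have hs := supp_prime R
    rw [e]
    refine ⟨(hs.union h1).subset (Function.mulSupport_mul _ _), ?_⟩
    rw [finprod_mul_distrib hs h1]
    have h3 : (∏ᶠ p : Nat.Primes, ‖(((R : ℕ) : ℚ) : ℚ_[(p : ℕ)])‖) = ((R : ℕ) : ℝ)⁻¹ := by
      rw [finprod_eq_single _ R]
      · exact norm_prime_self R
      · intro p hp
        exact norm_prime_ne p R hp
    have hr0 : ((R : ℕ) : ℝ) ≠ 0 := by exact_mod_cast hr.ne_zero
    rw [h3]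
    push_cast
    calc ((R : ℕ) : ℝ)⁻¹ * (∏ᶠ p : Nat.Primes, ‖(((a : ℕ) : ℚ) : ℚ_[(p : ℕ)])‖) *
          (((R : ℕ) : ℝ) * a)
        = ((R : ℕ) : ℝ)⁻¹ * ((R : ℕ) : ℝ) *
            ((∏ᶠ p : Nat.Primes, ‖(((a : ℕ) : ℚ) : ℚ_[(p : ℕ)])‖) * a) := by ring
      _ = 1 := by rw [h2, inv_mul_cancel₀ hr0, one_mul]

/-- the product formula for rational numbers -/
theorem rat_formula (q : ℚ) (hq : q ≠ 0) :
    (Function.mulSupport fun p : Nat.Primes => ‖((q : ℚ) : ℚ_[(p : ℕ)])‖).Finite ∧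
      (∏ᶠ p : Nat.Primes, ‖((q : ℚ) : ℚ_[(p : ℕ)])‖) * |(q : ℝ)| = 1 := by
  have hn : q.num.natAbs ≠ 0 := Int.natAbs_ne_zero.2 (Rat.num_ne_zero.2 hq)
  obtain ⟨h1, h2⟩ := nat_formula q.num.natAbs hn
  obtain ⟨h3, h4⟩ := nat_formula q.den q.den_nz
  have e : (fun p : Nat.Primes => ‖((q : ℚ) : ℚ_[(p : ℕ)])‖) =
      fun p : Nat.Primes => ‖(((q.num.natAbs : ℕ) : ℚ) : ℚ_[(p : ℕ)])‖ /
        ‖(((q.den : ℕ) : ℚ) : ℚ_[(p : ℕ)])‖ := by
    funext p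
    rw [← norm_div]
    have h5 : ((q : ℚ) : ℚ_[(p : ℕ)]) = ((q.num : ℤ) : ℚ_[(p : ℕ)]) / ((q.den : ℕ) : ℚ_[(p : ℕ)]) :=
      Rat.cast_def q
    rw [h5, norm_div, norm_div]
    congr 1
    · have h8 : ((((q.num.natAbs : ℕ) : ℚ)) : ℚ_[(p : ℕ)]) =
          (((q.num.natAbs : ℤ)) : ℚ_[(p : ℕ)]) := by
        rw [Rat.cast_natCast, Int.cast_natCast]
      rw [h8]
      rcases Int.natAbs_eq q.num with h6 | h6
      · exact congrArg (fun z : ℤ => ‖(z : ℚ_[(p : ℕ)])‖) h6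
      · refine (congrArg (fun z : ℤ => ‖(z : ℚ_[(p : ℕ)])‖) h6).trans ?_
        rw [Int.cast_neg, norm_neg]
  rw [e]
  have h3' : (Function.mulSupport fun p : Nat.Primes =>
      (‖(((q.den : ℕ) : ℚ) : ℚ_[(p : ℕ)])‖)⁻¹).Finite := by
    refine h3.subset ?_
    intro p hp hp'
    apply hp
    show (‖(((q.den : ℕ) : ℚ) : ℚ_[(p : ℕ)])‖)⁻¹ = 1
    have hp'' : ‖(((q.den : ℕ) : ℚ) : ℚ_[(p : ℕ)])‖ = 1 := hp'
    rw [hp'', inv_one]
  refine ⟨?_, ?_⟩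
  · refine (h1.union h3').subset ?_
    simp only [div_eq_mul_inv]
    exact Function.mulSupport_mul _ _
  · rw [finprod_div_distrib h1 h3]
    have h7 : |(q : ℝ)| = (q.num.natAbs : ℝ) / (q.den : ℝ) := by
      rw [Rat.cast_def, abs_div, Nat.abs_cast, ← Int.cast_abs, Nat.cast_natAbs]
    rw [h7, div_mul_div_comm, h2, h4, div_one]

end Pool.Agent.K1H89.DP
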